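import Pool.Agent.Helper40.IZ.Stmts

/-!
ZEX: isometric extensions of the affine maps of zero entropy (MP_7a8f48_an).
-/

open Finset Filter MeasureTheory Topology

namespace Pool.Agent.Helper40.IZ

open Pool.Agent.Helper16.AZ (T E Op mm)
open Pool.Agent.Helper16.BZ (EQ)
open Pool.Agent.Helper16.MD (MS)
open Pool.Agent.Helper40.DZ (ZEnt)
open Pool.Agent.Helper40.IZP (IsoExt)

/-- equidistributed orbits are dense -/
theorem zex_dense {N : ℕ} {S' : T N → T N} (h : EQ S' (mm N)) {p : ℕ} (hp : 1 ≤ p) (w : T N)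
    {C : Set (T N)} (hC : IsClosed C) (hw : ∀ n, S'^[p * n] w ∈ C) : ∀ z, z ∈ C := by
  by_contra hne
  push Not at hne
  obtain ⟨z, hz⟩ := hne
  have hCn : C.Nonempty := ⟨_, hw 0⟩
  set g : T N → ℝ := fun x => Metric.infDist x C with hg
  have hgc : Continuous g := Metric.continuous_infDist_pt C
  have hg0 : ∀ x, 0 ≤ g x := fun x => Metric.infDist_nonneg
  have hgz : g z ≠ 0 := by
    intro h0
    exact hz ((hC.mem_iff_infDist_zero hCn).mpr h0)
  have : IsProbabilityMeasure (mm N) := by unfold mm; infer_instance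
  have : (mm N).IsOpenPosMeasure := by unfold mm; infer_instance
  have hint : Integrable g (mm N) := by
    obtain ⟨B, hB⟩ := (isCompact_univ (X := T N)).bddAbove_image hgc.continuousOn
    refine Integrable.of_bound hgc.aestronglyMeasurable B ?_
    refine Filter.Eventually.of_forall fun x => ?_
    rw [Real.norm_of_nonneg (hg0 x)]
    exact hB ⟨x, Set.mem_univ _, rfl⟩
  have hpos : 0 < ∫ x, g x ∂(mm N) :=
    hgc.integral_pos_of_hasCompactSupport_nonneg_nonzero
      (HasCompactSupport.of_compactSpace g) hg0 hgz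
  have h1 := h p hp (fun x => ((g x : ℝ) : ℂ)) (Complex.continuous_ofReal.comp hgc) w
  have h2 : (fun N : ℕ => (∑ n ∈ range N, (((g (S'^[p * n] w)) : ℝ) : ℂ)) / (N : ℂ)) =
      fun _ => 0 := by
    funext M
    have : ∀ n ∈ range M, (((g (S'^[p * n] w)) : ℝ) : ℂ) = 0 := by
      intro n _
      have : g (S'^[p * n] w) = 0 := Metric.infDist_zero_of_mem (hw n)
      rw [this]; simp
    rw [Finset.sum_eq_zero this]; simp
  rw [h2] at h1
  have h3 := tendsto_nhds_unique h1 tendsto_const_nhds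
  rw [integral_complex_ofReal] at h3
  have h4 : ∫ x, g x ∂(mm N) = 0 := by exact_mod_cast h3
  linarith

/-- finitely many terms do not matter -/
theorem zex_shift {f f' : ℕ → ℂ} {n₀ : ℕ} (h : ∀ n, n₀ ≤ n → f n = f' n)
    (hf : Tendsto (fun N : ℕ => MS f' N / (N : ℂ)) atTop (𝓝 0)) :
    Tendsto (fun N : ℕ => MS f N / (N : ℂ)) atTop (𝓝 0) := by
  set C : ℝ := ∑ n ∈ range n₀, ‖f n - f' n‖ with hC
  have hb : ∀ N, ‖MS f N - MS f' N‖ ≤ C := by
    intro N
    unfold MS
    rw [← Finset.sum_sub_distrib]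
    have h1 : ∀ n ∈ Icc 1 N, ‖((ArithmeticFunction.moebius n : ℤ) : ℂ) * f n -
        ((ArithmeticFunction.moebius n : ℤ) : ℂ) * f' n‖ ≤
        if n ∈ range n₀ then ‖f n - f' n‖ else 0 := by
      intro n _
      rw [← mul_sub, norm_mul]
      split_ifs with hn
      · have hm : ‖((ArithmeticFunction.moebius n : ℤ) : ℂ)‖ ≤ 1 := by
          rw [Complex.norm_intCast]
          exact_mod_cast ArithmeticFunction.abs_moebius_le_one
        calc _ ≤ 1 * ‖f n - f' n‖ := by gcongr
          _ = _ := one_mul _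
      · rw [h n (by simpa using hn)]; simp
    refine (norm_sum_le _ _).trans ((Finset.sum_le_sum h1).trans ?_)
    rw [← Finset.sum_filter]
    refine Finset.sum_le_sum_of_subset_of_nonneg ?_ fun _ _ _ => norm_nonneg _
    intro n hn
    exact (Finset.mem_filter.mp hn).2
  have h2 : Tendsto (fun N : ℕ => (MS f N - MS f' N) / (N : ℂ)) atTop (𝓝 0) := by
    rw [tendsto_zero_iff_norm_tendsto_zero]
    refine squeeze_zero (fun _ => norm_nonneg _) (fun N => ?_)
      (tendsto_const_div_atTop_nhds_zero_nat C)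
    rw [norm_div, Complex.norm_natCast]
    exact div_le_div_of_nonneg_right (hb N) (Nat.cast_nonneg _)
  have h3 := h2.add hf
  simp only [zero_add] at h3
  refine h3.congr fun N => ?_
  ring

section

variable {X : Type} [MetricSpace X] {r : ℕ} {π : X → T r} {S : T r → T r}
  {τ : X → X} {ρ : X → X → ℝ}

theorem zex_nonneg (h : IsoExt π S τ ρ) {x x' : X} (hx : π x = π x') : 0 ≤ ρ x x' := by
  obtain ⟨_, _, _, h0, hs, ht, _⟩ := h
  have h1 : ρ x x = 0 := (h0 x x rfl).mpr rfl
  have h2 := ht x x' x hx hx.symm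
  have h3 := hs x x' hx
  linarith

theorem zex_bdd [CompactSpace X] (h : IsoExt π S τ ρ) : ∃ D : ℝ, 1 ≤ D ∧ ∀ x x', π x = π x' → ρ x x' ≤ D := by
  have hK : IsCompact {z : X × X | π z.1 = π z.2} :=
    (isClosed_eq (h.1.comp continuous_fst) (h.1.comp continuous_snd)).isCompact
  obtain ⟨B, hB⟩ := hK.bddAbove_image h.2.2.1
  refine ⟨max 1 B, le_max_left _ _, fun x x' hx => ?_⟩
  exact (hB ⟨(x, x'), hx, rfl⟩).trans (le_max_right _ _)

end

theorem st_ZEX (hORB : Pool.Agent.Helper40.DZ.ST_ORB) (hMOD : ST_MOD)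
    (hAEQ : Pool.Agent.Helper16.BZ.ST_AEQ) : ST_ZEX := by
  intro r A β S hZ hFX X _ _ π τ ρ hI hτ F x
  obtain ⟨N, Q, n₀, A', β', S', P, y, hQ, hAff, hP, horb⟩ := hORB r A β S (π x) hZ
  have hEQ : EQ (S' : T N → T N) (mm N) :=
    hAEQ N A' β' S' (fun x i => hAff.2.2 x i) ⟨hAff.1, hAff.2.1⟩
  have hQ0 : 0 < Q := hQ
  have hSc : Continuous S := by
    refine continuous_pi fun i => ?_
    simp only [hZ.2]
    fun_prop
  -- the relation between the two systems
  have hrel : ∀ c, c < Q → ∀ z, S (P c z) = P ((c + 1) % Q) (S' z) := by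
    intro c hc
    have hcl : IsClosed {z : T N | S (P c z) = P ((c + 1) % Q) (S' z)} :=
      isClosed_eq (hSc.comp (hP c)) ((hP _).comp S'.continuous)
    refine zex_dense hEQ hQ (S'^[n₀ * Q + c] y) hcl fun n => ?_
    have hm : ∀ m, m = Q * n + (n₀ * Q + c) → n₀ ≤ m ∧ m % Q = c ∧ (m + 1) % Q = (c + 1) % Q := by
      intro m hm
      have e : m = c + Q * (n + n₀) := by rw [hm]; ring
      refine ⟨?_, ?_, ?_⟩
      · rw [e]
        nlinarith [Nat.zero_le c, Nat.zero_le n]
      · rw [e, Nat.add_mul_mod_self_left, Nat.mod_eq_of_lt hc]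
      · rw [e, show c + Q * (n + n₀) + 1 = (c + 1) + Q * (n + n₀) by ring,
          Nat.add_mul_mod_self_left]
    obtain ⟨h1, h2, h3⟩ := hm _ rfl
    have e1 := horb _ h1
    have e2 := horb _ (Nat.le_succ_of_le h1)
    rw [h2] at e1
    have h3' : (Q * n + (n₀ * Q + c)).succ % Q = (c + 1) % Q := h3
    rw [h3'] at e2
    show S (P c (S'^[Q * n] (S'^[n₀ * Q + c] y))) =
      P ((c + 1) % Q) (S' (S'^[Q * n] (S'^[n₀ * Q + c] y)))
    rw [← Function.iterate_add_apply, ← e1, ← Function.iterate_succ_apply' (f := S),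
      ← Function.iterate_succ_apply' (f := (S' : T N → T N))]
    exact e2
  obtain ⟨D, hD1, hD⟩ := zex_bdd hI
  have hnn := fun {x x' : X} (hx : π x = π x') => zex_nonneg hI hx
  obtain ⟨hπ, hπτ, hρc, hρ0, hρs, hρt, hρi⟩ := hI
  -- the new system
  let Y : Type := {p : T N × ℕ × X // p.2.1 < Q ∧ π p.2.2 = P p.2.1 p.1}
  have hYK : IsCompact {p : T N × ℕ × X | p.2.1 < Q ∧ π p.2.2 = P p.2.1 p.1} := by
    have hbig : IsCompact ((Set.univ : Set (T N)) ×ˢ ((Set.Iio Q) ×ˢ (Set.univ : Set X))) :=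
      isCompact_univ.prod ((Set.finite_Iio Q).isCompact.prod isCompact_univ)
    refine hbig.of_isClosed_subset ?_ ?_
    · have e : {p : T N × ℕ × X | p.2.1 < Q ∧ π p.2.2 = P p.2.1 p.1} =
          {p | p.2.1 < Q} ∩ {p | π p.2.2 = P p.2.1 p.1} := rfl
      rw [e]
      refine IsClosed.inter ?_ ?_
      · exact (isClosed_discrete (Set.Iio Q)).preimage (continuous_fst.comp continuous_snd)
      · have hPc : Continuous fun q : ℕ × T N => P q.1 q.2 := by
          rw [continuous_iff_continuousAt]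
          rintro ⟨c, z⟩
          have hc : ContinuousAt (fun q : ℕ × T N => P c q.2) (c, z) :=
            ((hP c).comp continuous_snd).continuousAt
          refine hc.congr ?_
          have : ∀ᶠ q : ℕ × T N in 𝓝 (c, z), q.1 = c := by
            have h1 : ∀ᶠ a : ℕ in 𝓝 c, a = c := by rw [nhds_discrete]; simp
            exact (continuous_fst.tendsto (c, z)).eventually h1
          filter_upwards [this] with q hq
          rw [hq]
        exact isClosed_eq (hπ.comp (continuous_snd.comp continuous_snd))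
          (hPc.comp ((continuous_fst.comp continuous_snd).prodMk continuous_fst))
    · rintro ⟨z, c, x1⟩ ⟨hc, _⟩
      exact ⟨Set.mem_univ _, hc, Set.mem_univ _⟩
  have : CompactSpace Y := isCompact_iff_compactSpace.mp hYK
  let π' : Y → T N := fun p => p.1.1
  let τ' : Y → Y := fun p => ⟨(S' p.1.1, (p.1.2.1 + 1) % Q, τ p.1.2.2),
    Nat.mod_lt _ hQ0, by
      show π (τ p.1.2.2) = P ((p.1.2.1 + 1) % Q) (S' p.1.1)
      rw [hπτ, p.2.2, hrel _ p.2.1]⟩
  let ρ' : Y → Y → ℝ := fun p p' => if p.1.2.1 = p'.1.2.1 then ρ p.1.2.2 p'.1.2.2 else D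
  have hfib : ∀ p p' : Y, π' p = π' p' → p.1.2.1 = p'.1.2.1 → π p.1.2.2 = π p'.1.2.2 := by
    intro p p' h1 h2
    rw [p.2.2, p'.2.2, h2]
    exact congrArg _ h1
  have hτ' : Continuous τ' := by
    refine Continuous.subtype_mk ?_ _
    refine (S'.continuous.comp (continuous_fst.comp continuous_subtype_val)).prodMk ?_
    refine Continuous.prodMk ?_ (hτ.comp
      (continuous_snd.comp (continuous_snd.comp continuous_subtype_val)))
    exact (continuous_of_discreteTopology (f := fun c : ℕ => (c + 1) % Q)).comp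
      (continuous_fst.comp (continuous_snd.comp continuous_subtype_val))
  have hI' : IsoExt π' S' τ' ρ' := by
    refine ⟨continuous_fst.comp continuous_subtype_val, fun p => rfl, ?_, ?_, ?_, ?_, ?_⟩
    · -- continuity
      rintro ⟨p, p'⟩ hpp
      have hcc : ∀ᶠ q : Y × Y in 𝓝 (p, p'), q.1.1.2.1 = p.1.2.1 ∧ q.2.1.2.1 = p'.1.2.1 := by
        have c1 : Continuous fun q : Y × Y => q.1.1.2.1 :=
          continuous_fst.comp (continuous_snd.comp (continuous_subtype_val.comp continuous_fst))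
        have c2 : Continuous fun q : Y × Y => q.2.1.2.1 :=
          continuous_fst.comp (continuous_snd.comp (continuous_subtype_val.comp continuous_snd))
        have h1 : ∀ᶠ a : ℕ in 𝓝 p.1.2.1, a = p.1.2.1 := by rw [nhds_discrete]; simp
        have h2 : ∀ᶠ a : ℕ in 𝓝 p'.1.2.1, a = p'.1.2.1 := by rw [nhds_discrete]; simp
        exact ((c1.tendsto (p, p')).eventually h1).and ((c2.tendsto (p, p')).eventually h2)
      by_cases hc : p.1.2.1 = p'.1.2.1
      · have hx : ContinuousWithinAt (fun q : Y × Y => ρ q.1.1.2.2 q.2.1.2.2)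
            {z | π' z.1 = π' z.2 ∧ z.1.1.2.1 = z.2.1.2.1} (p, p') := by
          have hmap : ContinuousWithinAt (fun q : Y × Y => (q.1.1.2.2, q.2.1.2.2))
              {z | π' z.1 = π' z.2 ∧ z.1.1.2.1 = z.2.1.2.1} (p, p') := by
            refine Continuous.continuousWithinAt ?_
            exact (continuous_snd.comp (continuous_snd.comp
              (continuous_subtype_val.comp continuous_fst))).prodMk
              (continuous_snd.comp (continuous_snd.comp
              (continuous_subtype_val.comp continuous_snd)))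
          have h1 : ContinuousWithinAt (fun z : X × X => ρ z.1 z.2) {z | π z.1 = π z.2}
              ((fun q : Y × Y => (q.1.1.2.2, q.2.1.2.2)) (p, p')) :=
            hρc (p.1.2.2, p'.1.2.2) (hfib p p' hpp hc)
          exact ContinuousWithinAt.comp (g := fun z : X × X => ρ z.1 z.2)
            (f := fun q : Y × Y => (q.1.1.2.2, q.2.1.2.2)) h1 hmap
            (fun z hz => hfib z.1 z.2 hz.1 hz.2)
        have hev : ∀ᶠ q : Y × Y in 𝓝[{z | π' z.1 = π' z.2}] (p, p'),
            q ∈ {z : Y × Y | π' z.1 = π' z.2 ∧ z.1.1.2.1 = z.2.1.2.1} := by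
          filter_upwards [self_mem_nhdsWithin, mem_nhdsWithin_of_mem_nhds hcc] with q hq1 hq2
          exact ⟨hq1, by rw [hq2.1, hq2.2, hc]⟩
        have hx' : Tendsto (fun q : Y × Y => ρ q.1.1.2.2 q.2.1.2.2)
            (𝓝[{z | π' z.1 = π' z.2}] (p, p')) (𝓝 (ρ p.1.2.2 p'.1.2.2)) := by
          refine hx.tendsto.mono_left ?_
          rw [nhdsWithin, nhdsWithin]
          refine le_inf inf_le_left ?_
          rw [Filter.le_principal_iff]
          exact hev
        show Tendsto (fun z : Y × Y => ρ' z.1 z.2) _ (𝓝 (ρ' p p'))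
        have e : ρ' p p' = ρ p.1.2.2 p'.1.2.2 := if_pos hc
        rw [e]
        refine hx'.congr' ?_
        filter_upwards [hev] with q hq
        exact (if_pos hq.2).symm
      · show Tendsto (fun z : Y × Y => ρ' z.1 z.2) _ (𝓝 (ρ' p p'))
        have e : ρ' p p' = D := if_neg hc
        rw [e]
        refine tendsto_const_nhds.congr' ?_
        filter_upwards [mem_nhdsWithin_of_mem_nhds hcc] with q hq
        have : ¬ q.1.1.2.1 = q.2.1.2.1 := by rw [hq.1, hq.2]; exact hc
        exact (if_neg this).symm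
    · intro p p' hp
      by_cases hc : p.1.2.1 = p'.1.2.1
      · have e : ρ' p p' = ρ p.1.2.2 p'.1.2.2 := if_pos hc
        rw [e, hρ0 _ _ (hfib p p' hp hc)]
        constructor
        · intro h
          exact Subtype.ext (Prod.ext hp (Prod.ext hc h))
        · rintro rfl; rfl
      · have e : ρ' p p' = D := if_neg hc
        rw [e]
        constructor
        · intro h; linarith
        · rintro rfl; exact absurd rfl hc
    · intro p p' hp
      by_cases hc : p.1.2.1 = p'.1.2.1
      · have e : ρ' p p' = ρ p.1.2.2 p'.1.2.2 := if_pos hc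
        have e' : ρ' p' p = ρ p'.1.2.2 p.1.2.2 := if_pos hc.symm
        rw [e, e', hρs _ _ (hfib p p' hp hc)]
      · have e : ρ' p p' = D := if_neg hc
        have e' : ρ' p' p = D := if_neg (Ne.symm hc)
        rw [e, e']
    · intro p p' p'' h1 h2
      have hn : ∀ q q' : Y, π' q = π' q' → 0 ≤ ρ' q q' := by
        intro q q' hq
        by_cases hc : q.1.2.1 = q'.1.2.1
        · have e : ρ' q q' = ρ q.1.2.2 q'.1.2.2 := if_pos hc
          rw [e]; exact hnn (hfib q q' hq hc)
        · have e : ρ' q q' = D := if_neg hc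
          rw [e]; linarith
      have hle : ρ' p p'' ≤ D := by
        by_cases hc : p.1.2.1 = p''.1.2.1
        · have e : ρ' p p'' = ρ p.1.2.2 p''.1.2.2 := if_pos hc
          rw [e]; exact hD _ _ (hfib p p'' (h1.trans h2) hc)
        · exact (if_neg hc).le
      by_cases hc1 : p.1.2.1 = p'.1.2.1
      · by_cases hc2 : p'.1.2.1 = p''.1.2.1
        · have e1 : ρ' p p' = ρ p.1.2.2 p'.1.2.2 := if_pos hc1
          have e2 : ρ' p' p'' = ρ p'.1.2.2 p''.1.2.2 := if_pos hc2
          have e3 : ρ' p p'' = ρ p.1.2.2 p''.1.2.2 := if_pos (hc1.trans hc2)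
          rw [e1, e2, e3]
          exact hρt _ _ _ (hfib p p' h1 hc1) (hfib p' p'' h2 hc2)
        · have e2 : ρ' p' p'' = D := if_neg hc2
          have := hn p p' h1
          linarith
      · have e1 : ρ' p p' = D := if_neg hc1
        have := hn p' p'' h2
        linarith
    · intro p p' hp
      by_cases hc : p.1.2.1 = p'.1.2.1
      · have e : ρ' p p' = ρ p.1.2.2 p'.1.2.2 := if_pos hc
        have e' : ρ' (τ' p) (τ' p') = ρ (τ p.1.2.2) (τ p'.1.2.2) := by
          refine if_pos ?_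
          show (p.1.2.1 + 1) % Q = (p'.1.2.1 + 1) % Q
          rw [hc]
        rw [e, e']
        exact hρi _ _ (hfib p p' hp hc)
      · have e : ρ' p p' = D := if_neg hc
        have e' : ρ' (τ' p) (τ' p') = D := by
          refine if_neg ?_
          show ¬ (p.1.2.1 + 1) % Q = (p'.1.2.1 + 1) % Q
          intro h
          apply hc
          have h1 : p.1.2.1 + 1 ≡ p'.1.2.1 + 1 [MOD Q] := h
          have h2 : p.1.2.1 ≡ p'.1.2.1 [MOD Q] := Nat.ModEq.add_right_cancel' 1 h1
          have h3 : p.1.2.1 % Q = p'.1.2.1 % Q := h2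
          rwa [Nat.mod_eq_of_lt p.2.1, Nat.mod_eq_of_lt p'.2.1] at h3
        rw [e, e']
  -- the point
  have hπit : ∀ n x1, π (τ^[n] x1) = S^[n] (π x1) := by
    intro n
    induction n with
    | zero => intro x1; rfl
    | succ n ih =>
      intro x1
      rw [Function.iterate_succ_apply, Function.iterate_succ_apply, ih, hπτ]
  let x2 : Y := ⟨(S'^[n₀] y, n₀ % Q, τ^[n₀] x), Nat.mod_lt _ hQ0, by
    show π (τ^[n₀] x) = P (n₀ % Q) (S'^[n₀] y)
    rw [hπit]; exact horb n₀ le_rfl⟩
  have hS's : Function.Surjective (S' : T N → T N) := by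
    have hcl : IsClosed (Set.range (S' : T N → T N)) :=
      (isCompact_range S'.continuous).isClosed
    intro z
    refine zex_dense hEQ le_rfl (S' y) hcl (fun n => ?_) z
    refine ⟨S'^[1 * n] y, ?_⟩
    rw [← Function.iterate_succ_apply' (f := (S' : T N → T N)), Function.iterate_succ_apply]
  have hτs : Function.Surjective τ' := by
    obtain ⟨M, _, _, Θ, _, hM1, hM2, _, _, hM5, _⟩ := hMOD Y N π' S' τ' ρ' x2 hI' hEQ
    intro p
    obtain ⟨w, hw⟩ := hS's (π' p)
    obtain ⟨θ, hθ⟩ := hM1 w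
    obtain ⟨θ', hθ', hθτ⟩ := hM5 w θ hθ
    obtain ⟨m, hm⟩ := ((hM2 _ θ' hθ').2 p).mp hw.symm
    exact ⟨θ m, by rw [← hθτ, hm]⟩
  obtain ⟨x3, hx3⟩ := (hτs.iterate n₀) x2
  have hit : ∀ n, (τ'^[n] x2).1.2.2 = τ^[n] (τ^[n₀] x) := by
    intro n
    induction n with
    | zero => rfl
    | succ n ih =>
      rw [Function.iterate_succ_apply', Function.iterate_succ_apply']
      show τ (τ'^[n] x2).1.2.2 = _
      rw [ih]
  have hF' : Continuous fun p : Y => F p.1.2.2 :=
    F.continuous.comp (continuous_snd.comp (continuous_snd.comp continuous_subtype_val))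
  have hmain := hFX N A' β' S' hAff Y π' τ' ρ' hI' hτ' ⟨fun p : Y => F p.1.2.2, hF'⟩ x3
  refine zex_shift (n₀ := n₀) (fun n hn => ?_) hmain
  show F (τ^[n] x) = F (τ'^[n] x3).1.2.2
  obtain ⟨k, rfl⟩ := Nat.exists_eq_add_of_le' hn
  rw [Function.iterate_add_apply τ' k n₀ x3, hx3, hit, ← Function.iterate_add_apply]

end Pool.Agent.Helper40.IZ
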